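import Mathlib

set_option autoImplicit false

/-!
# MP_254f8a_gt: discrete subspaces of size `2^κ` in `SC_p(X × X)`
-/

namespace Pool.Agent.Results.MP_254f8a_gt.TreesWithManyBranches

open Cardinal Topology

universe u

/-- `F` is separately continuous. -/
def SepCont {X : Type u} [TopologicalSpace X] (F : X × X → ℝ) : Prop :=
  (∀ x : X, Continuous fun y => F (x, y)) ∧ ∀ y : X, Continuous fun x => F (x, y)

section

variable {M K : Type u} [LinearOrder M] [WellFoundedLT M] [Nonempty M]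

/-- The functions agreeing with `a` up to (and including) `ξ`. -/
def C (a : M → K) (ξ : M) : Set (M → K) := {x | ∀ η ≤ ξ, x η = a η}

/-- The tree topology on `M → K`. -/
def treeTop (M K : Type u) [LinearOrder M] [Nonempty M] : TopologicalSpace (M → K) where
  IsOpen U := ∀ x ∈ U, ∃ ξ, C x ξ ⊆ U
  isOpen_univ := fun _ _ => ⟨Classical.arbitrary M, Set.subset_univ _⟩
  isOpen_inter := by
    intro U V hU hV x hx
    obtain ⟨ξ, hξ⟩ := hU x hx.1
    obtain ⟨η, hη⟩ := hV x hx.2
    refine ⟨max ξ η, fun z hz => ⟨hξ fun i hi => hz i (hi.trans (le_max_left _ _)),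
      hη fun i hi => hz i (hi.trans (le_max_right _ _))⟩⟩
  isOpen_sUnion := by
    intro S hS x hx
    obtain ⟨U, hU, hxU⟩ := hx
    obtain ⟨ξ, hξ⟩ := hS U hU x hxU
    exact ⟨ξ, hξ.trans (Set.subset_sUnion_of_mem hU)⟩

theorem cont_of_locally {Y : Type*} [TopologicalSpace Y] (g : (M → K) → Y)
    (h : ∀ x, ∃ ξ, ∀ z ∈ C x ξ, g z = g x) : @Continuous _ _ (treeTop M K) _ g := by
  let _ := treeTop M K
  rw [continuous_def]
  intro s _ x hx
  obtain ⟨ξ, hξ⟩ := h x
  exact ⟨ξ, fun z hz => by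
    show g z ∈ s
    rw [hξ z hz]
    exact hx⟩

theorem C_open (a : M → K) (ξ : M) : IsOpen[treeTop M K] (C a ξ) :=
  fun x hx => ⟨ξ, fun z hz η hη => (hz η hη).trans (hx η hη)⟩

open Classical in
/-- The separately continuous functions. -/
noncomputable def F (a : M → K) (p : (M → K) × (M → K)) : ℝ :=
  if ∃ ξ, (∀ η < ξ, p.1 η = a η ∧ p.2 η = a η) ∧ p.1 ξ ≠ a ξ ∧ p.2 ξ ≠ a ξ then 1 else 0

theorem F_symm (a x y : M → K) : F a (x, y) = F a (y, x) := by
  unfold F
  congr 1
  apply propext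
  constructor
  · rintro ⟨ξ, h1, h2, h3⟩
    exact ⟨ξ, fun η hη => ⟨(h1 η hη).2, (h1 η hη).1⟩, h3, h2⟩
  · rintro ⟨ξ, h1, h2, h3⟩
    exact ⟨ξ, fun η hη => ⟨(h1 η hη).2, (h1 η hη).1⟩, h3, h2⟩

theorem F_aux {a x y z : M → K} {ξ : M} (hx : x ξ ≠ a ξ) (hz : z ∈ C y ξ)
    (h : ∃ ξ, (∀ η < ξ, x η = a η ∧ z η = a η) ∧ x ξ ≠ a ξ ∧ z ξ ≠ a ξ) :
    ∃ ξ, (∀ η < ξ, x η = a η ∧ y η = a η) ∧ x ξ ≠ a ξ ∧ y ξ ≠ a ξ := by
  obtain ⟨ξ', h1, h2, h3⟩ := h
  have hle : ξ' ≤ ξ := by
    by_contra hlt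
    exact hx (h1 ξ (not_le.1 hlt)).1
  refine ⟨ξ', fun η hη => ⟨(h1 η hη).1, ?_⟩, h2, ?_⟩
  · rw [← hz η (hη.le.trans hle)]
    exact (h1 η hη).2
  · rw [← hz ξ' hle]
    exact h3

theorem F_cont (a x : M → K) : @Continuous _ _ (treeTop M K) _ fun y => F a (x, y) := by
  apply cont_of_locally
  intro y
  by_cases hxa : x = a
  · refine ⟨Classical.arbitrary M, fun z _ => ?_⟩
    simp [F, hxa]
  · obtain ⟨ξ, hξ⟩ := Function.ne_iff.1 hxa
    refine ⟨ξ, fun z hz => ?_⟩
    have hy : y ∈ C z ξ := fun η hη => (hz η hη).symm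
    unfold F
    congr 1
    exact propext ⟨fun h => F_aux hξ hz h, fun h => F_aux hξ hy h⟩

theorem F_sep (a : M → K) : @SepCont _ (treeTop M K) (F a) := by
  refine ⟨F_cont a, fun y => ?_⟩
  simp only [F_symm a _ y]
  exact F_cont a y

theorem F_self (a : M → K) : F a (a, a) = 0 := by
  unfold F
  rw [if_neg]
  rintro ⟨ξ, -, h, -⟩
  exact h rfl

theorem F_ne {a b : M → K} (h : b ≠ a) : F b (a, a) = 1 := by
  unfold F
  rw [if_pos]
  have hne : {ξ | a ξ ≠ b ξ}.Nonempty := Function.ne_iff.1 h.symm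
  refine ⟨WellFounded.min (wellFounded_lt (α := M)) _ hne, fun η hη => ?_, ?_, ?_⟩
  · have := WellFounded.not_lt_min (wellFounded_lt (α := M)) {ξ | a ξ ≠ b ξ} (x := η)
    have h2 : a η = b η := by
      by_contra hcon
      exact this hcon hη
    exact ⟨h2, h2⟩
  · exact WellFounded.min_mem (wellFounded_lt (α := M)) _ hne
  · exact WellFounded.min_mem (wellFounded_lt (α := M)) _ hne

end

/-- There is a tree with at most `κ` nodes and `2^κ` branches: a set `A` of `2^κ` functions on a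
well-ordered set `M` of size at most `κ`, with at most `κ` different restrictions to each initial
segment `{η : η ≤ ξ}`. -/
def ManyBranches (κ : Cardinal.{u}) : Prop :=
  ∃ (M K : Type u) (_ : LinearOrder M) (_ : WellFoundedLT M), #M ≤ κ ∧
    ∃ A : Set (M → K), #A = 2 ^ κ ∧
      ∀ ξ : M, #((fun (x : M → K) (η : Set.Iic ξ) => x η) '' A) ≤ κ

/-- There is a Tychonoff space `X` of weight at most `κ` such that `SC_p(X × X)` has a discrete
subspace of cardinality `2^κ`. -/
def HasLargeDiscrete (κ : Cardinal.{u}) : Prop :=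
  ∃ (X : Type u) (_ : TopologicalSpace X), T35Space X ∧
    (∃ B : Set (Set X), TopologicalSpace.IsTopologicalBasis B ∧ #B ≤ κ) ∧
    ∃ D : Set (X × X → ℝ), (∀ F ∈ D, SepCont F) ∧ DiscreteTopology D ∧ #D = 2 ^ κ

theorem main (κ : Cardinal.{u}) (hκ : ℵ₀ ≤ κ) (h : ManyBranches κ) : HasLargeDiscrete κ := by
  obtain ⟨M, K, iL, iW, hM, A, hA, hT⟩ := h
  have hcan : κ < 2 ^ κ := Cardinal.cantor κ
  have : Nonempty M := by
    by_contra hne
    rw [not_nonempty_iff] at hne
    have h1 : #A ≤ 1 := by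
      rw [Cardinal.le_one_iff_subsingleton]
      infer_instance
    rw [hA] at h1
    have h2 : (1 : Cardinal.{u}) < 2 ^ κ := Cardinal.one_lt_aleph0.trans (hκ.trans_lt hcan)
    exact absurd h1 (not_le.2 h2)
  letI : TopologicalSpace (M → K) := treeTop M K
  have hcr : CompletelyRegularSpace (M → K) := by
    refine ⟨fun x L hL hx => ?_⟩
    obtain ⟨ξ, hξ⟩ : ∃ ξ, C x ξ ⊆ Lᶜ := hL.isOpen_compl x hx
    classical
    refine ⟨fun z => if z ∈ C x ξ then 0 else 1, ?_, ?_, ?_⟩
    · apply cont_of_locally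
      intro y
      refine ⟨ξ, fun z hz => ?_⟩
      have : z ∈ C x ξ ↔ y ∈ C x ξ :=
        ⟨fun h η hη => (hz η hη).symm.trans (h η hη), fun h η hη => (hz η hη).trans (h η hη)⟩
      simp only [this]
    · have : x ∈ C x ξ := fun _ _ => rfl
      simp [this]
    · intro z hz
      have : z ∉ C x ξ := fun h => hξ h hz
      simp [this]
  have ht1 : T1Space (M → K) := by
    refine ⟨fun x => ⟨?_⟩⟩
    intro y hy
    obtain ⟨ξ, hξ⟩ := Function.ne_iff.1 (show y ≠ x from hy)
    exact ⟨ξ, fun z hz hzx => hξ (by rw [← hz ξ le_rfl, show z = x from hzx])⟩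
  have ht35 : T35Space (M → K) := {}
  refine ⟨A, inferInstance, inferInstance, ?_, ?_⟩
  · refine ⟨Set.range (fun p : Σ ξ : M,
      ((fun (x : M → K) (η : Set.Iic ξ) => x η) '' A : Set (Set.Iic ξ → K)) =>
      {x : A | ∀ η : Set.Iic p.1, (x : M → K) η = (p.2 : Set.Iic p.1 → K) η}), ?_, ?_⟩
    · apply TopologicalSpace.isTopologicalBasis_of_isOpen_of_nhds
      · rintro _ ⟨⟨ξ, s⟩, rfl⟩
        have hop : IsOpen {x : M → K | ∀ η : Set.Iic ξ, x η = (s : Set.Iic ξ → K) η} :=
          fun x hx => ⟨ξ, fun z hz η => (hz η η.2).trans (hx η)⟩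
        exact hop.preimage continuous_subtype_val
      · rintro x U hx hU
        obtain ⟨V, hV, rfl⟩ := isOpen_induced_iff.1 hU
        obtain ⟨ξ, hξ⟩ := hV x hx
        refine ⟨_, ⟨⟨ξ, ⟨fun η => (x : M → K) η, x, x.2, rfl⟩⟩, rfl⟩, fun η => rfl,
          fun z hz => hξ fun η hη => hz ⟨η, hη⟩⟩
    · refine Cardinal.mk_range_le.trans ?_
      rw [Cardinal.mk_sigma]
      refine (Cardinal.sum_le_sum _ _ hT).trans ?_
      rw [Cardinal.sum_const']
      exact (mul_le_mul' hM le_rfl).trans (Cardinal.mul_eq_self hκ).le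
  · let G : A → (A × A → ℝ) := fun a p => F (a : M → K) ((p.1 : M → K), (p.2 : M → K))
    have hG0 : ∀ a : A, G a (a, a) = 0 := fun a => F_self _
    have hG1 : ∀ a b : A, b ≠ a → G b (a, a) = 1 := fun a b hba =>
      F_ne fun e => hba (Subtype.ext e)
    have hinj : Function.Injective G := by
      intro a b hab
      by_contra hne
      have h3 := hG1 a b (Ne.symm hne)
      rw [← hab, hG0] at h3
      exact zero_ne_one h3
    refine ⟨Set.range G, ?_, ?_, ?_⟩
    · rintro _ ⟨a, rfl⟩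
      exact ⟨fun x => ((F_sep (a : M → K)).1 x).comp continuous_subtype_val,
        fun y => ((F_sep (a : M → K)).2 y).comp continuous_subtype_val⟩
    · rw [discreteTopology_iff_isOpen_singleton]
      rintro ⟨_, a, rfl⟩
      have hset : ({⟨G a, a, rfl⟩} : Set (Set.range G)) =
          {H : Set.range G | (H : A × A → ℝ) (a, a) < 1 / 2} := by
        ext ⟨_, b, rfl⟩
        constructor
        · intro h
          have h' : G b = G a := congrArg Subtype.val (Set.mem_singleton_iff.1 h)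
          show G b (a, a) < 1 / 2
          rw [h', hG0]
          norm_num
        · intro h
          have h2 : G b (a, a) < 1 / 2 := h
          by_contra hne
          have hba : b ≠ a := by
            intro e
            apply hne
            subst e
            exact Set.mem_singleton _
          rw [hG1 a b hba] at h2
          norm_num at h2
      rw [hset]
      exact isOpen_lt ((continuous_apply (a, a)).comp continuous_subtype_val) continuous_const
    · rw [Cardinal.mk_range_eq _ hinj, hA]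

theorem many_of_arith (κ : Cardinal.{u}) (hκ : ℵ₀ ≤ κ)
    (hμ : ∃ μ : Cardinal.{u}, κ ^< μ ≤ κ ∧ κ ^ μ = 2 ^ κ) : ManyBranches κ := by
  obtain ⟨μ, h1, h2⟩ := hμ
  have hcan : κ < 2 ^ κ := Cardinal.cantor κ
  have hμ0 : ℵ₀ ≤ μ := by
    by_contra hlt
    obtain ⟨n, rfl⟩ := Cardinal.lt_aleph0.1 (not_le.1 hlt)
    have := Cardinal.power_nat_le (n := n) hκ
    rw [← Cardinal.power_natCast, h2] at this
    exact absurd this (not_le.2 hcan)
  have hμκ : μ ≤ κ := by
    by_contra hlt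
    have := (Cardinal.le_powerlt κ (not_le.1 hlt)).trans h1
    rw [Cardinal.power_self_eq hκ] at this
    exact absurd this (not_le.2 hcan)
  have hM : #(μ.ord.ToType) = μ := by simp
  have hK : #(κ.out) = κ := by simp
  refine ⟨μ.ord.ToType, κ.out, inferInstance, inferInstance, hM.le.trans hμκ, Set.univ, ?_, ?_⟩
  · rw [Cardinal.mk_univ, ← h2, ← hK, ← hM, Cardinal.power_def]
    simp
  · intro ξ
    refine (Cardinal.mk_set_le _).trans ?_
    have e : #(Set.Iic ξ → κ.out) = κ ^ #(Set.Iic ξ) := by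
      rw [← Cardinal.power_def, hK]
    rw [e]
    refine (Cardinal.le_powerlt κ ?_).trans h1
    have hIio : #(Set.Iio ξ) < μ := by
      have := Cardinal.mk_Iio_lt ξ (by simp)
      rwa [hM] at this
    have : Set.Iic ξ = insert ξ (Set.Iio ξ) := by
      ext z; simp [le_iff_eq_or_lt]
    rw [this]
    refine (Cardinal.mk_insert_le).trans_lt ?_
    exact Cardinal.add_lt_of_lt hμ0 hIio (Cardinal.one_lt_aleph0.trans_le hμ0)

/-- **Main result.** If some tree with at most `κ` nodes has `2^κ` branches, then there is a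
Tychonoff space of weight at most `κ` such that `SC_p(X × X)` has a discrete subspace of
cardinality `2^κ`; and such a tree exists whenever `κ^{<μ} ≤ κ` and `κ^μ = 2^κ` for some `μ`. -/
theorem result :
    (∀ κ : Cardinal.{u}, ℵ₀ ≤ κ → ManyBranches κ → HasLargeDiscrete κ) ∧
    ∀ κ : Cardinal.{u}, ℵ₀ ≤ κ → (∃ μ : Cardinal.{u}, κ ^< μ ≤ κ ∧ κ ^ μ = 2 ^ κ) →
      ManyBranches κ :=
  ⟨main, many_of_arith⟩

end Pool.Agent.Results.MP_254f8a_gt.TreesWithManyBranches
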